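import Mathlib
import Pool.Agent.H36.Addm

namespace Pool.Agent.Results.MP_d4db3843_lc.Correct

open scoped RealInnerProductSpace
open Pool.Agent.H36.Addm

/-- The data kept by ADDM: a finite graph `(N, E)`, points `c` and index sets `I`. -/
structure State (d m : ℕ) : Type 1 where
  N : Type
  fin : Finite N
  E : N → N → Prop
  c : N → EuclideanSpace ℝ (Fin d)
  I : N → Finset (Fin m)

/-- An admissible choice in step (a) for the row `a = A_i`. -/
structure Part {d m : ℕ} (a : EuclideanSpace ℝ (Fin d)) (ε : ℝ) (s : State d m) : Type where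
  Vm : Set s.N
  V0 : Set s.N
  Vp : Set s.N
  ne : Vm.Nonempty
  d1 : Disjoint Vm V0
  d2 : Disjoint Vm Vp
  d3 : Disjoint V0 Vp
  cover : Vm ∪ V0 ∪ Vp = Set.univ
  hm : ∀ v ∈ Vm, ⟪a, s.c v⟫ < 1 + ε / 2
  hp : ∀ v ∈ Vp, 1 + ε / 2 < ⟪a, s.c v⟫
  h0 : ∀ v ∈ V0, 1 ≤ ⟪a, s.c v⟫ ∧ ⟪a, s.c v⟫ ≤ 1 + ε

/-- Edges `uw` with `u ∈ V₋`, `w ∈ V₊`. -/
def Cross {d m : ℕ} {a : EuclideanSpace ℝ (Fin d)} {ε : ℝ} {s : State d m} (Q : Part a ε s) :
    Type :=
  {e : s.N × s.N // s.E e.1 e.2 ∧ e.1 ∈ Q.Vm ∧ e.2 ∈ Q.Vp}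

/-- Admissible point for the node created in step (b) on the edge `e`. -/
def OkPt {d m : ℕ} {a : EuclideanSpace ℝ (Fin d)} {ε : ℝ} {s : State d m} (Q : Part a ε s)
    (e : Cross Q) (x : EuclideanSpace ℝ (Fin d)) : Prop :=
  x ∈ segment ℝ (s.c e.1.1) (s.c e.1.2) ∧ 1 ≤ ⟪a, x⟫ ∧ ⟪a, x⟫ ≤ 1 + ε

open Classical in
/-- Index sets after steps (b), (c), (d). -/
noncomputable def newI {d m : ℕ} {a : EuclideanSpace ℝ (Fin d)} {ε : ℝ} {s : State d m}
    (Q : Part a ε s) (i : Fin m) : {v : s.N // v ∉ Q.Vp} ⊕ Cross Q → Finset (Fin m)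
  | Sum.inl v => if v.1 ∈ Q.V0 then insert i (s.I v.1) else s.I v.1
  | Sum.inr e => insert i (s.I e.1.1 ∩ s.I e.1.2)

/-- The state after steps (b)-(e). -/
noncomputable def next {d m : ℕ} {a : EuclideanSpace ℝ (Fin d)} {ε : ℝ} {s : State d m}
    (Q : Part a ε s) (i : Fin m) (pt : Cross Q → EuclideanSpace ℝ (Fin d)) : State d m where
  N := {v : s.N // v ∉ Q.Vp} ⊕ Cross Q
  fin := by have := s.fin; unfold Cross; infer_instance
  E u w := u ≠ w ∧ d - 1 ≤ (newI Q i u ∩ newI Q i w).card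
  c := Sum.elim (fun v => s.c v.1) pt
  I := newI Q i

/-- The start state for vertices `p`. -/
def init {d m : ℕ} (hm : d + 1 ≤ m) (p : Fin (d+1) → EuclideanSpace ℝ (Fin d)) : State d m where
  N := Fin (d+1)
  fin := inferInstance
  E u w := u ≠ w
  c := p
  I j := (Finset.univ.erase j).map (Fin.castLEEmb hm)

/-- `Reach hm A ε n s`: some run is in state `s` after treating the first `n` rows. -/
inductive Reach {d m : ℕ} (hm : d + 1 ≤ m) (A : Fin m → EuclideanSpace ℝ (Fin d)) (ε : ℝ) :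
    ℕ → State d m → Prop
  | start (p : Fin (d+1) → EuclideanSpace ℝ (Fin d))
      (h1 : ∀ j k, ⟪A (Fin.castLE hm k), p j⟫ ≤ 1 + ε / 2)
      (h2 : ∀ j k, k ≠ j → ⟪A (Fin.castLE hm k), p j⟫ = 1 + ε / 2) :
      Reach hm A ε (d+1) (init hm p)
  | step (i : Fin m) (s : State d m) (h : Reach hm A ε i s) (Q : Part (A i) ε s)
      (pt : Cross Q → EuclideanSpace ℝ (Fin d)) (hpt : ∀ e, OkPt Q e (pt e)) :
      Reach hm A ε (i+1) (next Q i pt)

theorem rec0 {d m : ℕ} {hm : d + 1 ≤ m} {A : Fin m → Sp d}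
    (hS : Bornology.IsBounded {x : Sp d | ∀ k, ⟪A (Fin.castLE hm k), x⟫ ≤ 1}) (x : Sp d)
    (hx : ∀ k, ⟪A (Fin.castLE hm k), x⟫ ≤ 0) : x = 0 := by
  by_contra h
  obtain ⟨C, hC⟩ := hS.exists_norm_le
  have hn : 0 < ‖x‖ := norm_pos_iff.2 h
  have := hC (((|C| + 1) / ‖x‖) • x) (fun k => by
    rw [real_inner_smul_right]
    have := mul_nonpos_of_nonneg_of_nonpos (show 0 ≤ (|C| + 1) / ‖x‖ by positivity) (hx k)
    linarith)
  rw [norm_smul, Real.norm_of_nonneg (by positivity), div_mul_cancel₀ _ hn.ne'] at this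
  have := le_abs_self C
  linarith

theorem basic {d m : ℕ} {hm : d + 1 ≤ m} {A : Fin m → Sp d} {ε : ℝ} (hε : 0 ≤ ε) {n : ℕ}
    {s : State d m} (h : Reach hm A ε n s) :
    (∀ v, ∀ j ∈ s.I v, 1 ≤ ⟪A j, s.c v⟫) ∧ (∀ v, ∀ j : Fin m, j.1 < n → ⟪A j, s.c v⟫ ≤ 1 + ε) ∧
      ∀ u w, u ≠ w → d - 1 ≤ (s.I u ∩ s.I w).card → s.E u w := by
  induction h with
  | start p h1 h2 =>
    refine ⟨fun v j hj => ?_, fun v j hj => ?_, fun u w h _ => h⟩
    · obtain ⟨k, hk, rfl⟩ := Finset.mem_map.1 hj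
      have := h2 v k (Finset.mem_erase.1 hk).1
      show 1 ≤ ⟪A (Fin.castLE hm k), p v⟫
      linarith
    · have := h1 v ⟨j, hj⟩
      show ⟪A (Fin.castLE hm ⟨j, hj⟩), p v⟫ ≤ _
      linarith
  | step i s h Q pt hpt ih =>
    obtain ⟨i1, i2, _⟩ := ih
    refine ⟨?_, ?_, fun u w h1 h2 => ⟨h1, h2⟩⟩
    · rintro (v | e) j hj
      · show 1 ≤ ⟪A j, s.c v.1⟫
        change j ∈ newI Q i (Sum.inl v) at hj
        unfold newI at hj
        dsimp only at hj
        split_ifs at hj with h0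
        · rcases Finset.mem_insert.1 hj with hj | hj
          · rw [hj]; exact (Q.h0 _ h0).1
          · exact i1 _ _ hj
        · exact i1 _ _ hj
      · show 1 ≤ ⟪A j, pt e⟫
        rcases Finset.mem_insert.1 (show j ∈ insert i (s.I e.1.1 ∩ s.I e.1.2) from hj) with hj | hj
        · rw [hj]; exact (hpt e).2.1
        · obtain ⟨a, b, ha, hb, hab, he⟩ := (hpt e).1
          rw [← he, inner_add_right, real_inner_smul_right, real_inner_smul_right]
          have := mul_le_mul_of_nonneg_left (i1 _ _ (Finset.mem_inter.1 hj).1) ha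
          have := mul_le_mul_of_nonneg_left (i1 _ _ (Finset.mem_inter.1 hj).2) hb
          linarith
    · rintro (v | e) j hj
      · show ⟪A j, s.c v.1⟫ ≤ _
        by_cases hji : j = i
        · rw [hji]
          have hv : v.1 ∈ Q.Vm ∪ Q.V0 ∪ Q.Vp := Q.cover ▸ Set.mem_univ _
          rcases hv with (hv | hv) | hv
          · have := Q.hm _ hv; linarith
          · exact (Q.h0 _ hv).2
          · exact absurd hv v.2
        · exact i2 _ _ (by have : j.1 ≠ i.1 := fun h => hji (Fin.ext h); omega)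
      · show ⟪A j, pt e⟫ ≤ _
        by_cases hji : j = i
        · rw [hji]; exact (hpt e).2.2
        · have hlt : j.1 < i.1 := by have : j.1 ≠ i.1 := fun h => hji (Fin.ext h); omega
          obtain ⟨a, b, ha, hb, hab, he⟩ := (hpt e).1
          rw [← he, inner_add_right, real_inner_smul_right, real_inner_smul_right]
          have := mul_le_mul_of_nonneg_left (i2 e.1.1 _ hlt) ha
          have := mul_le_mul_of_nonneg_left (i2 e.1.2 _ hlt) hb
          have : a * (1 + ε) + b * (1 + ε) = 1 + ε := by rw [← add_mul, hab, one_mul]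
          linarith

theorem cyc {d m : ℕ} (hd : 2 ≤ d) {hm : d + 1 ≤ m} {A : Fin m → Sp d} {ε : ℝ} (hε : 0 ≤ ε)
    (hS : Bornology.IsBounded {x : Sp d | ∀ k, ⟪A (Fin.castLE hm k), x⟫ ≤ 1})
    {y : Sp d} (hy : Gen A y) {n : ℕ} {s : State d m} (h : Reach hm A ε n s) :
    ∃ z : Finset (Fin m) → ZMod 2,
      (∀ σ, z σ ≠ 0 → σ.card = d ∧ (∀ j ∈ σ, j.1 < n) ∧ ∃ v, σ ⊆ s.I v) ∧
      (∀ τ, bd z τ = 0) ∧ ∑ σ, z σ * gd A y σ = 1 := by
  classical
  induction h with
  | start p h1 h2 =>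
    set ρ : Finset (Fin m) := Finset.univ.map (Fin.castLEEmb hm) with hρ
    have hc : ρ.card = d + 1 := by simp [hρ]
    refine ⟨bd fun σ => if σ = ρ then 1 else 0, fun σ hσ => ?_, bd_bd _, ?_⟩
    · obtain ⟨j, _, hj⟩ := Finset.exists_ne_zero_of_sum_ne_zero hσ
      have hj1 : j ∉ σ := fun h => hj (if_pos h)
      rw [if_neg hj1] at hj
      have hj2 : insert j σ = ρ := by
        by_contra h; exact hj (if_neg h)
      have hsub : ∀ k ∈ insert j σ, ∃ k' : Fin (d+1), Fin.castLEEmb hm k' = k := fun k hk => by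
        rw [hj2] at hk
        obtain ⟨k', _, h⟩ := Finset.mem_map.1 hk
        exact ⟨k', h⟩
      obtain ⟨j', hj'⟩ := hsub j (Finset.mem_insert_self _ _)
      refine ⟨?_, fun k hk => ?_, j', fun k hk => ?_⟩
      · have := Finset.card_insert_of_notMem hj1
        rw [hj2, hc] at this
        omega
      · obtain ⟨k', rfl⟩ := hsub k (Finset.mem_insert_of_mem hk)
        exact k'.2
      · obtain ⟨k', rfl⟩ := hsub k (Finset.mem_insert_of_mem hk)
        refine Finset.mem_map.2 ⟨k', Finset.mem_erase.2 ⟨?_, Finset.mem_univ _⟩, rfl⟩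
        rintro rfl
        exact hj1 (hj' ▸ hk)
    · rw [adj]
      simp only [ite_mul, one_mul, zero_mul, Finset.sum_ite_eq', Finset.mem_univ, if_true]
      have hsp : Submodule.span ℝ (Set.range fun k => A (Fin.castLE hm k)) = ⊤ := by
        rw [← Submodule.orthogonal_eq_bot_iff, Submodule.eq_bot_iff]
        intro x hx
        exact rec0 hS x fun k => le_of_eq
          ((Submodule.mem_orthogonal _ _).1 hx _ (Submodule.subset_span ⟨k, rfl⟩))
      obtain ⟨a, ha⟩ := (Submodule.mem_span_range_iff_exists_fun ℝ).1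
        (show y ∈ Submodule.span ℝ (Set.range fun k => A (Fin.castLE hm k)) from hsp ▸ trivial)
      have ha' : ∑ j ∈ ρ, (fun j : Fin m => if h : j.1 < d + 1 then a ⟨j, h⟩ else 0) j • A j = y := by
        rw [hρ, Finset.sum_map, ← ha]
        refine Finset.sum_congr rfl fun k _ => ?_
        have : (Fin.castLEEmb hm k).1 < d + 1 := k.2
        simp only [dif_pos this]
        rfl
      obtain ⟨μ, hμ, k0, hk0, hk1⟩ := dep A ρ hc
      have hpos : ∀ j, 0 < 1 + ε / 2 - ⟪A (Fin.castLE hm j), p j⟫ := fun j => by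
        refine lt_of_le_of_ne (sub_nonneg.2 (h1 j j)) fun h => ?_
        have all : ∀ k, ⟪A (Fin.castLE hm k), p j⟫ = 1 + ε / 2 := fun k => by
          by_cases hk : k = j
          · rw [hk]; linarith
          · exact h2 j k hk
        have := rec0 hS (- p j) fun k => by rw [inner_neg_right, all]; linarith
        have h3 := all j
        rw [neg_eq_zero.1 this, inner_zero_right] at h3
        linarith
      have hM : ∀ j : Fin (d+1), μ (Fin.castLE hm j) * (1 + ε / 2 - ⟪A (Fin.castLE hm j), p j⟫) =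
          ∑ k : Fin (d+1), μ (Fin.castLE hm k) * (1 + ε / 2) := fun j => by
        have e0 := congrArg (fun x => ⟪x, p j⟫) hμ
        simp only [hρ, Finset.sum_map, sum_inner, real_inner_smul_left, inner_zero_left] at e0
        have e1 : ∑ k : Fin (d+1), μ (Fin.castLE hm k) *
            (1 + ε / 2 - ⟪A (Fin.castLE hm k), p j⟫) =
            μ (Fin.castLE hm j) * (1 + ε / 2 - ⟪A (Fin.castLE hm j), p j⟫) :=
          Finset.sum_eq_single j (fun k _ hk => by rw [h2 j k hk]; simp) (by simp)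
        rw [← e1]
        simp only [mul_sub, Finset.sum_sub_distrib]
        exact sub_eq_self.2 e0
      generalize (∑ k : Fin (d+1), μ (Fin.castLE hm k) * (1 + ε / 2)) = M at hM
      obtain ⟨k', _, rfl⟩ := Finset.mem_map.1 hk0
      have hM0 : M ≠ 0 := by rw [← hM k']; exact mul_ne_zero hk1 (hpos k').ne'
      refine cb_pos hy hc _ (fun j => M * μ j) ha' (by
        simp only [mul_smul, ← Finset.smul_sum, hμ, smul_zero]) fun k hk => ?_
      obtain ⟨j, _, rfl⟩ := Finset.mem_map.1 hk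
      refine (mul_pos_iff_of_pos_right (hpos j)).1 ?_
      have := mul_self_pos.2 hM0
      have e := hM j
      show 0 < M * μ (Fin.castLE hm j) * _
      rw [mul_assoc, e]
      exact this
  | step i s h Q pt hpt ih =>
    obtain ⟨z, hz, hb, hdeg⟩ := ih
    obtain ⟨i1, _, i3⟩ := basic hε h
    let zp : Finset (Fin m) → ZMod 2 := fun σ => if ∃ v, v ∉ Q.Vp ∧ σ ⊆ s.I v then 0 else z σ
    let cone : Finset (Fin m) → ZMod 2 := fun ρ => if i ∈ ρ then zp (ρ.erase i) else 0
    have zi : ∀ σ, i ∈ σ → z σ = 0 := fun σ hi => by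
      by_contra h'; exact lt_irrefl _ ((hz σ h').2.1 i hi)
    have hzp : ∀ σ, zp σ ≠ 0 → z σ ≠ 0 ∧ ∃ w ∈ Q.Vp, σ ⊆ s.I w := fun σ h' => by
      have h1 : ¬ ∃ v, v ∉ Q.Vp ∧ σ ⊆ s.I v := fun h1 => h' (if_pos h1)
      have h2 : z σ ≠ 0 := fun h2 => h' (by simp only [zp, h2, ite_self])
      obtain ⟨w, hw⟩ := (hz σ h2).2.2
      exact ⟨h2, w, by by_contra h3; exact h1 ⟨w, h3, hw⟩, hw⟩
    have sub1 : ∀ v : {v : s.N // v ∉ Q.Vp}, s.I v.1 ⊆ newI Q i (Sum.inl v) := fun v => by
      unfold newI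
      dsimp only
      split_ifs
      · exact Finset.subset_insert _ _
      · exact Finset.Subset.refl _
    refine ⟨fun σ => z σ + bd cone σ, fun σ hσ => ?_, fun τ => by rw [bd_add, hb, bd_bd, add_zero],
      ?_⟩
    · beta_reduce at hσ
      by_cases hi : i ∈ σ
      · have e : bd cone σ = bd zp (σ.erase i) := by
          unfold bd
          refine Finset.sum_congr rfl fun j _ => ?_
          by_cases hji : j = i
          · rw [hji, if_pos hi, if_neg (Finset.notMem_erase _ _), Finset.insert_erase hi]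
            simp only [zp, zi σ hi, ite_self]
          · simp only [cone, Finset.mem_erase, ne_eq, hji, not_false_eq_true, true_and]
            rw [if_pos (Finset.mem_insert_of_mem hi), Finset.erase_insert_of_ne hji]
        rw [zi σ hi, zero_add, e] at hσ
        obtain ⟨j, _, hj⟩ := Finset.exists_ne_zero_of_sum_ne_zero hσ
        have hj1 : j ∉ σ.erase i := fun h => hj (if_pos h)
        rw [if_neg hj1] at hj
        obtain ⟨hj2, w, hw, hsw⟩ := hzp _ hj
        obtain ⟨c1, c2, _⟩ := hz _ hj2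
        rw [Finset.card_insert_of_notMem hj1] at c1
        have c3 := Finset.card_erase_add_one hi
        have hu : ∃ u, u ∉ Q.Vp ∧ σ.erase i ⊆ s.I u := by
          by_contra hno
          apply hσ
          rw [← hb (σ.erase i)]
          unfold bd
          refine Finset.sum_congr rfl fun k _ => ?_
          refine if_congr Iff.rfl rfl (if_neg ?_)
          rintro ⟨v, hv, hv'⟩
          exact hno ⟨v, hv, (Finset.subset_insert _ _).trans hv'⟩
        obtain ⟨u, hu, hsu⟩ := hu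
        have hsw' := (Finset.subset_insert _ _).trans hsw
        refine ⟨by omega, fun k hk => ?_, ?_⟩
        · by_cases hki : k = i
          · rw [hki]; omega
          · have := c2 k (Finset.mem_insert_of_mem (Finset.mem_erase.2 ⟨hki, hk⟩))
            omega
        · have hv : u ∈ Q.Vm ∪ Q.V0 ∪ Q.Vp := Q.cover ▸ Set.mem_univ _
          rcases hv with (hv | hv) | hv
          · have hE : s.E u w := i3 u w (fun h => hu (h ▸ hw)) (by
              have := Finset.card_le_card (Finset.subset_inter hsu hsw')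
              omega)
            refine ⟨Sum.inr ⟨(u, w), hE, hv, hw⟩, ?_⟩
            show σ ⊆ insert i (s.I u ∩ s.I w)
            exact Finset.subset_insert_iff.2 (Finset.subset_inter hsu hsw')
          · refine ⟨Sum.inl ⟨u, hu⟩, ?_⟩
            show σ ⊆ newI Q i (Sum.inl ⟨u, hu⟩)
            unfold newI
            dsimp only
            rw [if_pos hv]
            exact Finset.subset_insert_iff.2 hsu
          · exact absurd hv hu
      · have e : bd cone σ = zp σ := by
          unfold bd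
          rw [Finset.sum_eq_single i]
          · rw [if_neg hi]
            simp only [cone, Finset.mem_insert_self, if_true, Finset.erase_insert hi]
          · intro j _ hj
            simp [cone, hi, Ne.symm hj]
          · simp
        rw [e] at hσ
        have h1 : ∃ v, v ∉ Q.Vp ∧ σ ⊆ s.I v := by
          by_contra h1
          apply hσ
          simp only [zp, if_neg h1]
          exact CharTwo.add_self_eq_zero _
        have h2 : z σ ≠ 0 := by simpa only [zp, if_pos h1, add_zero] using hσ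
        obtain ⟨v, hv, hv'⟩ := h1
        obtain ⟨c1, c2, _⟩ := hz _ h2
        exact ⟨c1, fun k hk => Nat.lt_succ_of_lt (c2 k hk), Sum.inl ⟨v, hv⟩,
          hv'.trans (sub1 ⟨v, hv⟩)⟩
    · simp only [add_mul, Finset.sum_add_distrib]
      rw [hdeg, adj, Finset.sum_eq_zero, add_zero]
      intro ρ _
      by_cases h0 : cone ρ = 0
      · rw [h0, zero_mul]
      have hi : i ∈ ρ := by by_contra h'; exact h0 (if_neg h')
      simp only [cone, if_pos hi] at h0
      obtain ⟨h2, w, hw, hsw⟩ := hzp _ h0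
      have c3 := Finset.card_erase_add_one hi
      rw [cb_half hy (by rw [← c3, (hz _ h2).1]) (s.c w), mul_zero]
      intro j hj
      by_cases hji : j = i
      · rw [hji]; have := Q.hp w hw; linarith
      · have := i1 w j (hsw (Finset.mem_erase.2 ⟨hji, hj⟩)); linarith

theorem inner_ok {d m : ℕ} (hd : 2 ≤ d) {hm : d + 1 ≤ m} {A : Fin m → Sp d} {ε : ℝ} (hε : 0 ≤ ε)
    (hS : Bornology.IsBounded {x : Sp d | ∀ k, ⟪A (Fin.castLE hm k), x⟫ ≤ 1})
    {n : ℕ} {s : State d m} (h : Reach hm A ε n s) (x : Sp d) (hx : ∀ j, ⟪A j, x⟫ ≤ 1) :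
    x ∈ convexHull ℝ (Set.range s.c) := by
  have := s.fin
  by_contra hno
  obtain ⟨f, u, hf, hu⟩ := geometric_hahn_banach_closed_point (convex_convexHull ℝ _)
    ((Set.finite_range s.c).isCompact_convexHull ℝ).isClosed hno
  obtain ⟨y, hyU, hy⟩ := exists_gen A (⋂ v, {y | ⟪y, s.c v⟫ < ⟪y, x⟫})
    (isOpen_iInter_of_finite fun v => isOpen_lt (by fun_prop) (by fun_prop))
    ⟨(InnerProductSpace.toDual ℝ _).symm f, Set.mem_iInter.2 fun v => by
      simp only [Set.mem_ofPred_eq, InnerProductSpace.toDual_symm_apply]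
      exact (hf _ (subset_convexHull ℝ _ ⟨v, rfl⟩)).trans hu⟩
  obtain ⟨z, hz, _, hdeg⟩ := cyc hd hε hS hy h
  obtain ⟨σ, _, hσ⟩ := Finset.exists_ne_zero_of_sum_ne_zero (hdeg.trans_ne one_ne_zero)
  obtain ⟨_, _, v, hv⟩ := hz σ (left_ne_zero_of_mul hσ)
  have hg : Good A y σ := by
    by_contra hg
    exact right_ne_zero_of_mul hσ (if_neg hg)
  obtain ⟨l, hl0, hl⟩ := hg
  have h1 : ⟪y, s.c v⟫ < ⟪y, x⟫ := Set.mem_iInter.1 hyU v
  rw [← hl, sum_inner, sum_inner] at h1
  refine absurd h1 (not_lt.2 (Finset.sum_le_sum fun j hj => ?_))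
  rw [real_inner_smul_left, real_inner_smul_left]
  exact mul_le_mul_of_nonneg_left ((hx j).trans ((basic hε h).1 v j (hv hj))) (hl0 j hj)

theorem start_ex {d m : ℕ} {hm : d + 1 ≤ m} {A : Fin m → Sp d} {t : ℝ} (ht : 0 < t)
    (hS : Bornology.IsBounded {x : Sp d | ∀ k, ⟪A (Fin.castLE hm k), x⟫ ≤ 1}) (j : Fin (d+1)) :
    ∃ p : Sp d, (∀ k, ⟪A (Fin.castLE hm k), p⟫ ≤ t) ∧
      ∀ k, k ≠ j → ⟪A (Fin.castLE hm k), p⟫ = t := by
  let L : Sp d →ₗ[ℝ] (Fin d → ℝ) :=
    LinearMap.pi fun k => (innerSL ℝ (A (Fin.castLE hm (j.succAbove k)))).toLinearMap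
  have hL : ∀ x k, L x k = ⟪A (Fin.castLE hm (j.succAbove k)), x⟫ := fun _ _ => rfl
  have hinj : Function.Injective L := by
    rw [injective_iff_map_eq_zero]
    intro x hx
    have h0 : ∀ k, k ≠ j → ⟪A (Fin.castLE hm k), x⟫ = 0 := fun k hk => by
      obtain ⟨k', rfl⟩ := Fin.exists_succAbove_eq hk
      rw [← hL, hx]; rfl
    rcases le_total ⟪A (Fin.castLE hm j), x⟫ 0 with h | h
    · exact rec0 hS x fun k => by
        by_cases hk : k = j
        · rw [hk]; exact h
        · exact (h0 k hk).le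
    · exact neg_eq_zero.1 (rec0 hS (-x) fun k => by
        rw [inner_neg_right]
        by_cases hk : k = j
        · rw [hk]; linarith
        · rw [h0 k hk]; simp)
  obtain ⟨p, hp⟩ := (LinearMap.injective_iff_surjective_of_finrank_eq_finrank (by simp)).1 hinj
    (fun _ => t)
  have h0 : ∀ k, k ≠ j → ⟪A (Fin.castLE hm k), p⟫ = t := fun k hk => by
    obtain ⟨k', rfl⟩ := Fin.exists_succAbove_eq hk
    rw [← hL, hp]
  refine ⟨p, fun k => ?_, h0⟩
  by_cases hk : k = j
  · by_contra hlt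
    rw [hk] at hlt
    have := neg_eq_zero.1 (rec0 hS (-p) fun k => by
      rw [inner_neg_right]
      by_cases hk : k = j
      · rw [hk]; linarith [not_le.1 hlt]
      · rw [h0 k hk]; linarith)
    rw [this, inner_zero_right] at hlt
    exact hlt ht.le
  · exact (h0 k hk).le

theorem result (d m : ℕ) (hd : 2 ≤ d) (hm : d + 1 ≤ m) (A : Fin m → EuclideanSpace ℝ (Fin d))
    (ε : ℝ) (hε : 0 ≤ ε)
    (hS : Bornology.IsBounded
      {x : EuclideanSpace ℝ (Fin d) | ∀ k : Fin (d+1), ⟪A (Fin.castLE hm k), x⟫ ≤ 1}) :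
    (∃ s, Reach hm A ε (d+1) s) ∧
    (∀ (i : Fin m) (s : State d m), Reach hm A ε i s →
      Nonempty (Part (A i) ε s) ∧ ∀ (Q : Part (A i) ε s) (e : Cross Q), ∃ x, OkPt Q e x) ∧
    ∀ s, Reach hm A ε m s →
      {x | ∀ j, ⟪A j, x⟫ ≤ 1} ⊆ convexHull ℝ (Set.range s.c) ∧
        convexHull ℝ (Set.range s.c) ⊆ {x | ∀ j, ⟪A j, x⟫ ≤ 1 + ε} := by
  have lin : ∀ a : Sp d, IsLinearMap ℝ fun x : Sp d => ⟪a, x⟫ := fun a =>
    ⟨inner_add_right a, fun c x => real_inner_smul_right a x c⟩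
  refine ⟨?_, fun i s h => ⟨?_, fun Q e => ?_⟩, fun s h => ⟨fun x hx => inner_ok hd hε hS h x hx, ?_⟩⟩
  · choose p h1 h2 using start_ex (t := 1 + ε / 2) (by linarith) hS
    exact ⟨_, Reach.start p h1 h2⟩
  · have h0 := inner_ok hd hε hS h 0 (fun j => by simp)
    have hne : ∃ v, ⟪A i, s.c v⟫ < 1 + ε / 2 := by
      by_contra hno
      push Not at hno
      have := convexHull_min (s := Set.range s.c) (t := {x | 1 + ε / 2 ≤ ⟪A i, x⟫})
        (by rintro _ ⟨v, rfl⟩; exact hno v) (convex_halfSpace_ge (lin _) _) h0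
      simp only [Set.mem_ofPred_eq, inner_zero_right] at this
      linarith
    refine ⟨⟨{v | ⟪A i, s.c v⟫ < 1 + ε / 2}, {v | ⟪A i, s.c v⟫ = 1 + ε / 2},
      {v | 1 + ε / 2 < ⟪A i, s.c v⟫}, hne, ?_, ?_, ?_, ?_, fun _ h => h, fun _ h => h, ?_⟩⟩
    · exact Set.disjoint_left.2 fun v h1 h2 => (ne_of_lt h1) h2
    · exact Set.disjoint_left.2 fun v h1 h2 => lt_asymm (a := ⟪A i, s.c v⟫) h1 h2
    · exact Set.disjoint_left.2 fun v h1 h2 => (ne_of_gt h2) h1
    · refine Set.eq_univ_of_forall fun v => ?_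
      rcases lt_trichotomy ⟪A i, s.c v⟫ (1 + ε / 2) with h | h | h
      · exact Or.inl (Or.inl h)
      · exact Or.inl (Or.inr h)
      · exact Or.inr h
    · intro v hv
      have hv' : ⟪A i, s.c v⟫ = 1 + ε / 2 := hv
      constructor <;> linarith
  · have h1 := Q.hm _ e.2.2.1
    have h2 := Q.hp _ e.2.2.2
    set α := ⟪A i, s.c e.1.1⟫ with hα
    set β := ⟪A i, s.c e.1.2⟫ with hβ
    have hp : 0 < β - α := by linarith
    have key : ⟪A i, ((β - (1 + ε / 2)) / (β - α)) • s.c e.1.1 +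
        (((1 + ε / 2) - α) / (β - α)) • s.c e.1.2⟫ = 1 + ε / 2 := by
      rw [inner_add_right, real_inner_smul_right, real_inner_smul_right, ← hα, ← hβ]
      field_simp
      ring
    refine ⟨_, ⟨(β - (1 + ε / 2)) / (β - α), ((1 + ε / 2) - α) / (β - α),
      div_nonneg (by linarith) hp.le, div_nonneg (by linarith) hp.le, ?_, rfl⟩, ?_, ?_⟩
    · field_simp
      ring
    · rw [key]; linarith
    · rw [key]; linarith
  · intro x hx j
    exact convexHull_min (s := Set.range s.c) (t := {x | ⟪A j, x⟫ ≤ 1 + ε})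
      (by rintro _ ⟨v, rfl⟩; exact (basic hε h).2.1 v j j.2) (convex_halfSpace_le (lin _) _) hx

end Pool.Agent.Results.MP_d4db3843_lc.Correct
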